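import Pool.Agent.Lib.helper14.NullFin

set_option autoImplicit false

namespace Pool.Agent.Results.MP_ea2cf4_gt.Counter

open Pool.Agent.H14NF

theorem result : ∃ (X : Type) (_ : AddCommGroup X) (_ : TopologicalSpace X)
    (_ : IsTopologicalAddGroup X) (_ : PolishSpace X) (_ : MeasurableSpace X) (_ : BorelSpace X)
    (F : Set X), IsClosed F ∧ HaarNull F ∧
      ¬ ∃ B : ℕ → Set X, (∀ k, MeasurableSet (B k) ∧ NullFinite (B k)) ∧ F ⊆ ⋃ k, B k :=
  ⟨X, inferInstance, inferInstance, inferInstance, inferInstance, inferInstance, inferInstance,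
    A, A_closed, A_null, fun ⟨B, h, hc⟩ => not_cover B (fun k => (h k).1) (fun k => (h k).2) hc⟩

end Pool.Agent.Results.MP_ea2cf4_gt.Counter
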